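import Pool.Agent.Lib.MP_8f66f0_al_LQ2.Conv
import Pool.Agent.Lib.MP_8f66f0_al_Sw.GeoAll

/-! The theorem on the class `LQ2`. -/

set_option autoImplicit false

namespace Pool.Agent.LinAll

open Pool.Agent.TreeC

/-- The theorem on 2-dimensional CAT(0) complexes. -/
theorem s_cat : S_cat := fun Γ V _ _ _ K d A h1 h2 h3 h4 G' _ f hv =>
  Sw.cat_all Γ V K d A h1 h2 h3 h4 G' f hv

/-- For all groups `Γ` of the class `LQ2` and all Euclidean domains `L`, `K_1(LΓ)` is generated by
the units of `L` and the elements of `Γ`. -/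
theorem lq2_all {Γ : Type} [Group Γ] (h : LQ2 Γ) (L : Type) [CommRing L] [IsDomain L]
    (hL : IsEuc L) : K1Units L Γ :=
  lq2_k1 s_cat h L hL

end Pool.Agent.LinAll
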