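import Pool.Agent.Lib.MP_8f66f0_al_LQ2.Defs
import Pool.Agent.Lib.MP_8f66f0_al_LQ.All

/-! The theorem on the class `LQ2`, from the theorem on 2-dimensional CAT(0) complexes. -/

set_option autoImplicit false

namespace Pool.Agent.LinAll

open Pool.Agent.TreeC Pool.Agent.Cx2 Pool.Agent.QT Pool.Agent.TQ Pool.Agent.WhVan

/-- The theorem on 2-dimensional CAT(0) complexes, for the class `Hd KS`. -/
def S_cat : Prop :=
  ∀ (Γ V : Type) [Group Γ] [MulAction Γ V] [Nonempty V] (K : Set (Finset V))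
    (d : Real2 K → Real2 K → ℝ) (A : ℝ), IsCplx2 K → IsCat0 d → IsTame K d A → IsAct Γ K d →
    ∀ (G' : Type) [Group G'] (f : G' →* Γ),
      (∀ v : V, Hd KS ((MulAction.stabilizer Γ v).comap f)) → Hd KS G'

/-- The torsion free groups of the class `LQ`. -/
theorem lq_star_tf {Γ : Type} [Group Γ] (h : LQ Γ)
    (ht : ∀ (g : Γ) (n : ℕ), 0 < n → g ^ n = 1 → g = 1) : Star (Hd KS) Γ := by
  have g1 : TClv (Hd KS) := hd KS ks_tcl
  have g2 : TClv (Star (Hd KS)) := (star (Hd KS) g1).1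
  have g8 : BN.S_SHA (Star (Hd KS)) :=
    BN.sha_star g1 (BN.sha_hd ks_tcl (BN.sha_of_shp KS ks_tcl WhVan.shp_ks))
  have g6 : S_CCP (Star (Hd KS)) := ccp_star g1 CC.ccQ
  have g9 : ZN.S_ZP (Star (Hd KS)) := ZN.zp_star g1 (ZN.zp_hd ks_tcl ZA.s_zero)
  exact ZN.lq_mem ZI.int_fin g2 (tqp_star (QT.tqc_of_qc QT.qcB)) g6 g8 g9 (toLQ h) ht

/-- All extensions of groups with `Hd KS` by groups of the class have `Hd KS`. -/
theorem lq2_star (hC : S_cat) {Γ : Type} [Group Γ] (h : LQ2 Γ) : Star (Hd KS) Γ := by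
  have g1 : TClv (Hd KS) := hd KS ks_tcl
  have g2 : TClv (Star (Hd KS)) := (star (Hd KS) g1).1
  have g3 := (star (Hd KS) g1).2
  have g6 : S_CCP (Star (Hd KS)) := ccp_star g1 CC.ccQ
  induction h with
  | base h ht => exact lq_star_tf h ht
  | emb f hf _ ih => exact tclv_emb g2 f hf ih
  | directed S hne hd hS _ ih => exact g2.directed _ S hne hd hS ih
  | ext f _ _ ih1 ih2 => exact g3 _ _ f ih1 ih2
  | @tree Γ V _ _ T hT hadj hinv _ ih =>
    have _ : Nonempty V := hT.1.nonempty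
    obtain ⟨𝓗, hH, hs⟩ := graph Γ V T hT hadj hinv
    exact g2.tree Γ V 𝓗 hH fun x => by
      rw [hs x]
      exact ih x
  | cube G N hG hN hA _ ih =>
    exact CC.graph_of_med (P := Star (Hd KS)) g6 G ⟨hG.conn, hG.med⟩ hA hN ih
  | @cat Γ V _ _ _ K d A h1 h2 h3 h4 _ ih =>
    intro G _ f hf
    exact hC Γ V K d A h1 h2 h3 h4 G f fun v => star_comap3 g1 f hf _ (ih v)

/-- The groups of the class are in `KS`. -/
theorem lq2_ks (hC : S_cat) {Γ : Type} [Group Γ] (h : LQ2 Γ) : KS Γ := by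
  have g1 : TClv (Hd KS) := hd KS ks_tcl
  have h2 : Hd KS Γ := by
    refine lq2_star hC h Γ (MonoidHom.id Γ) ?_
    have : Subsingleton (MonoidHom.id Γ).ker := by
      constructor
      rintro ⟨a, ha⟩ ⟨b, hb⟩
      apply Subtype.ext
      rw [MonoidHom.mem_ker] at ha hb
      exact ha.trans hb.symm
    exact g1.triv _
  exact ks_tcl.iso _ _ Subgroup.topEquiv (h2 ⊤)

/-- For all groups `Γ` of the class `LQ2` and all Euclidean domains `L`, `K_1(LΓ)` is generated by
the units of `L` and the elements of `Γ`, from the theorem on 2-dimensional CAT(0) complexes. -/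
theorem lq2_k1 (hC : S_cat) {Γ : Type} [Group Γ] (h : LQ2 Γ) (L : Type) [CommRing L] [IsDomain L]
    (hL : IsEuc L) : K1Units L Γ :=
  (WaldL.k1Units_iff L Γ).2 ((lq2_ks hC h).1 L hL)

end Pool.Agent.LinAll
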