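import Pool.Agent.Lib.MP_8f66f0_al_LQ.Defs

/-! The class `LQ2` of groups which are built from torsion free linear groups by extensions,
directed unions, and actions on trees, CAT(0) cube complexes, and 2-dimensional CAT(0) complexes. -/

set_option autoImplicit false

namespace Pool.Agent.LinAll

/-- `K` is the set of simplices of a simplicial complex of dimension at most `2` with vertex
set `V`. -/
structure IsCplx2 {V : Type} (K : Set (Finset V)) : Prop where
  nonempty : ∀ s ∈ K, s.Nonempty
  card : ∀ s ∈ K, s.card ≤ 3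
  sub : ∀ s ∈ K, ∀ t ⊆ s, t.Nonempty → t ∈ K
  single : ∀ v, {v} ∈ K

/-- The geometric realization of `K`: the points are given by their barycentric coordinates. -/
def Real2 {V : Type} (K : Set (Finset V)) : Type :=
  {x : V → ℝ // ∃ s ∈ K, (∀ v, v ∈ s ↔ 0 < x v) ∧ (∀ v, 0 ≤ x v) ∧ ∑ v ∈ s, x v = 1}

/-- `d` is a metric which makes `Y` a CAT(0) space: any two points `x`, `y` are joined by a path `c`
with `d (z, c t)² ≤ (1 - t) d (z, x)² + t d (z, y)² - t (1 - t) d (x, y)²` for all `z` (by the cases
`z = x`, `z = y` and `z = c s` it is a geodesic). -/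
structure IsCat0 {Y : Type} (d : Y → Y → ℝ) : Prop where
  eq_zero : ∀ x y, d x y = 0 ↔ x = y
  symm : ∀ x y, d x y = d y x
  tri : ∀ x y z, d x z ≤ d x y + d y z
  geo : ∀ x y, ∃ c : ℝ → Y, c 0 = x ∧ c 1 = y ∧ ∀ t : ℝ, 0 ≤ t → t ≤ 1 → ∀ z,
    d z (c t) ^ 2 ≤ (1 - t) * d z x ^ 2 + t * d z y ^ 2 - t * (1 - t) * d x y ^ 2

/-- The barycentric coordinates are Lipschitz functions, and on the closed simplices the metric `d`
is bounded by a multiple of the maximum norm of the barycentric coordinates, with the same constant
for all simplices. (For the complexes which are built from Euclidean, or hyperbolic, triangles, this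
holds if there are only finitely many isometry types of simplices.) -/
structure IsTame {V : Type} (K : Set (Finset V)) (d : Real2 K → Real2 K → ℝ) (A : ℝ) : Prop where
  one_le : 1 ≤ A
  lip : ∀ (x y : Real2 K) (v : V), |x.1 v - y.1 v| ≤ A * d x y
  bound : ∀ s ∈ K, ∀ (x y : Real2 K) (δ : ℝ), (∀ v, v ∉ s → x.1 v = 0) →
    (∀ v, v ∉ s → y.1 v = 0) → (∀ v, |x.1 v - y.1 v| ≤ δ) → d x y ≤ A * δ

/-- The group `Γ` acts on the complex `K` by isometries of `d` (`x'` is the image of `x` under `g`
iff `x' (g v) = x v` for all `v`), and an element of `Γ` which maps a simplex to itself fixes its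
vertices. -/
structure IsAct (Γ : Type) {V : Type} [Group Γ] [MulAction Γ V] (K : Set (Finset V))
    (d : Real2 K → Real2 K → ℝ) : Prop where
  smul : ∀ (g : Γ), ∀ s ∈ K, s.map ⟨fun v => g • v, MulAction.injective g⟩ ∈ K
  isom : ∀ (g : Γ) (x x' y y' : Real2 K), (∀ v, x'.1 (g • v) = x.1 v) →
    (∀ v, y'.1 (g • v) = y.1 v) → d x' y' = d x y
  fix : ∀ (g : Γ), ∀ s ∈ K, (∀ v ∈ s, g • v ∈ s) → ∀ v ∈ s, g • v = v

/-- `c` is the set of vertices of a cube of the graph `G` (of dimension `n`, where `n = 0` is
allowed: a single vertex). -/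
def IsGCube {V : Type} (G : SimpleGraph V) (c : Set V) : Prop :=
  ∃ (n : ℕ) (f : (Fin n → Bool) → V), Function.Injective f ∧
    (∀ (x : Fin n → Bool) (i : Fin n), G.Adj (f x) (f (Function.update x i (!x i)))) ∧
    c = Set.range f

open scoped Pointwise in
/-- The least class of groups which contains all torsion free groups of the class `LQ` (so all
torsion free subgroups of `GL_d(R)`, for all `d` and all commutative rings `R`) and is closed under
isomorphism and subgroups (`emb`), directed unions, extensions, and

* actions on trees without inversions, with all vertex stabilizers in the class;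
* actions on CAT(0) cube complexes of finite dimension, with the stabilizers of all cubes (as sets,
  in particular of all vertices) in the class: the group acts on the `1`-skeleton `G`, a median graph
  which contains no cube of dimension `N + 1`;
* actions on 2-dimensional CAT(0) complexes with all vertex stabilizers in the class: the group acts
  without inversions on a simplicial complex `K` of dimension at most `2` and preserves a CAT(0)
  metric `d` on its geometric realization which satisfies `IsTame` (for instance all simplices are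
  Euclidean, with finitely many isometry types).

All these trees and complexes may be locally infinite, and there is no condition on the stabilizers
of the edges of the trees and of the edges and triangles of the 2-dimensional complexes. -/
inductive LQ2 : (Γ : Type) → [Group Γ] → Prop
  | base {Γ : Type} [Group Γ] : LQ Γ → (∀ (g : Γ) (n : ℕ), 0 < n → g ^ n = 1 → g = 1) → LQ2 Γ
  | emb {Γ Γ' : Type} [Group Γ] [Group Γ'] (f : Γ' →* Γ) : Function.Injective f → LQ2 Γ → LQ2 Γ'
  | directed {Γ : Type} [Group Γ] (S : Set (Subgroup Γ)) : S.Nonempty →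
      DirectedOn (· ≤ ·) S → (∀ g : Γ, ∃ K ∈ S, g ∈ K) → (∀ K ∈ S, LQ2 K) → LQ2 Γ
  | ext {Γ Q : Type} [Group Γ] [Group Q] (f : Γ →* Q) : LQ2 f.ker → LQ2 Q → LQ2 Γ
  | tree {Γ V : Type} [Group Γ] [MulAction Γ V] (T : SimpleGraph V) : T.IsTree →
      (∀ (g : Γ) (v w : V), T.Adj v w → T.Adj (g • v) (g • w)) →
      (∀ (g : Γ) (v w : V), T.Adj v w → ¬ (g • v = w ∧ g • w = v)) →
      (∀ v : V, LQ2 (MulAction.stabilizer Γ v)) → LQ2 Γ
  | cube {Γ V : Type} [Group Γ] [MulAction Γ V] (G : SimpleGraph V) (N : ℕ) : IsMedian G →
      NoCube G (N + 1) → (∀ (g : Γ) (v w : V), G.Adj v w → G.Adj (g • v) (g • w)) →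
      (∀ c : Set V, IsGCube G c → LQ2 (MulAction.stabilizer Γ c)) → LQ2 Γ
  | cat {Γ V : Type} [Group Γ] [MulAction Γ V] [Nonempty V] (K : Set (Finset V))
      (d : Real2 K → Real2 K → ℝ) (A : ℝ) : IsCplx2 K → IsCat0 d → IsTame K d A → IsAct Γ K d →
      (∀ v : V, LQ2 (MulAction.stabilizer Γ v)) → LQ2 Γ

end Pool.Agent.LinAll
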